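import Pool.Agent.H85.LSP.Nr

/-!
# LSP, module ASM: the infinite sequence of digits

Windows `w k` (around the places `N k`) and junctions `p k` (at the places `a k`) are put together
in one sequence `e`.
-/

set_option autoImplicit false

namespace Pool.LSP

open Polynomial Filter Topology Finset

namespace Asm

/-- Comparison of two sequences which agree on an interval. -/
theorem cmp {κ : ℤ → ℝ} {lam D : ℝ}
    (hL : ∀ (L : ℝ) (e e' : ℤ → ℤ), (∀ j, |(e j : ℝ)| ≤ L) → (∀ j, |(e' j : ℝ)| ≤ L) →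
      ∀ b : ℤ, (∀ j, j < b → e j = e' j) → ∀ n, n ≤ b →
        |cv κ e n - cv κ e' n| ≤ D * L * lam ^ (n - b))
    (hR : ∀ (L : ℝ) (e e' : ℤ → ℤ), (∀ j, |(e j : ℝ)| ≤ L) → (∀ j, |(e' j : ℝ)| ≤ L) →
      ∀ a : ℤ, (∀ j, a ≤ j → e j = e' j) → ∀ n, a ≤ n →
        |cv κ e n - cv κ e' n| ≤ D * L * lam ^ (a - n))
    {Q : ℝ} {e e' : ℤ → ℤ} (he : ∀ j, |(e j : ℝ)| ≤ Q) (he' : ∀ j, |(e' j : ℝ)| ≤ Q)
    {α β n : ℤ} (h : ∀ j, α ≤ j → j < β → e j = e' j) (h1 : α ≤ n) (h2 : n ≤ β) :
    |cv κ e n - cv κ e' n| ≤ D * Q * lam ^ (n - β) + D * Q * lam ^ (α - n) := by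
  obtain ⟨g, hg⟩ : ∃ g : ℤ → ℤ, g = fun j => if j < β then e j else e' j := ⟨_, rfl⟩
  have hgb : ∀ j, |(g j : ℝ)| ≤ Q := fun j => by
    rw [hg]
    dsimp only
    split_ifs
    · exact he j
    · exact he' j
  have h3 := hL Q e g he hgb β (fun j hj => by rw [hg]; simp [hj]) n h2
  have h4 := hR Q g e' hgb he' α (fun j hj => by
    rw [hg]
    dsimp only
    split_ifs with hb
    · exact h j hj hb
    · rfl) n h1
  have h5 : cv κ e n - cv κ e' n = (cv κ e n - cv κ g n) + (cv κ g n - cv κ e' n) := by ring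
  rw [h5]
  exact (abs_add_le _ _).trans (add_le_add h3 h4)

variable (y m : ℕ)

/-- half length of the window number `k` -/
def jj (k : ℕ) : ℤ := y + k

/-- centre of the window number `k` -/
def nn (k : ℕ) : ℤ := k * (2 * y + m) + k ^ 2

/-- right end of the window number `k` -/
def aa (k : ℕ) : ℤ := nn y m k + jj y k

theorem nn_succ (k : ℕ) : nn y m (k + 1) = aa y m k + m + jj y (k + 1) := by
  unfold aa nn jj
  push_cast
  ring

theorem aa_succ (k : ℕ) : aa y m (k + 1) = aa y m k + m + 2 * jj y (k + 1) := by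
  have := nn_succ y m k
  unfold aa at *
  linarith

theorem aa_mono : Monotone (aa y m) := by
  refine monotone_nat_of_le_succ fun k => ?_
  rw [aa_succ]
  unfold jj
  push_cast
  nlinarith

theorem le_nn (k : ℕ) : (k : ℤ) ≤ nn y m k := by
  unfold nn
  have h : (k : ℤ) ≤ (k : ℤ) ^ 2 := by
    rcases Nat.eq_zero_or_pos k with h | h
    · subst h
      simp
    · have : (1 : ℤ) ≤ k := by exact_mod_cast h
      nlinarith
  have : (0 : ℤ) ≤ (k : ℤ) * (2 * y + m) := by positivity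
  linarith

theorem le_aa (k : ℕ) : (k : ℤ) ≤ aa y m k := by
  have := le_nn y m k
  unfold aa jj
  linarith [Int.natCast_nonneg y, Int.natCast_nonneg k]

theorem ex_aa (j : ℤ) : ∃ k : ℕ, j < aa y m k := by
  refine ⟨j.toNat + 1, lt_of_lt_of_le ?_ (le_aa y m _)⟩
  have := Int.self_le_toNat j
  push_cast
  linarith

/-- the number of the window or junction of a place -/
noncomputable def kk (j : ℤ) : ℕ := Nat.find (ex_aa y m j)

theorem kk_eq {j : ℤ} {k : ℕ} (h1 : j < aa y m k) (h2 : ∀ i, i + 1 = k → aa y m i ≤ j) :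
    kk y m j = k := by
  unfold kk
  rw [Nat.find_eq_iff]
  refine ⟨h1, fun i hi => ?_⟩
  rw [not_lt]
  obtain ⟨l, rfl⟩ : ∃ l, k = l + 1 := ⟨k - 1, by omega⟩
  exact (aa_mono y m (by omega : i ≤ l)).trans (h2 l rfl)

/-- the pieces -/
def pc (w p : ℕ → ℤ → ℤ) : ℕ → ℤ → ℤ
  | 0, j => w 0 (j - nn y m 0)
  | k + 1, j => if j < aa y m k + m then p k (j - aa y m k) else w (k + 1) (j - nn y m (k + 1))

/-- the sequence of digits -/
noncomputable def ee (w p : ℕ → ℤ → ℤ) (j : ℤ) : ℤ := pc y m w p (kk y m j) j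

/-- left part of a junction -/
def eL (w : ℕ → ℤ → ℤ) (k : ℕ) (j : ℤ) : ℤ := w k (j + (aa y m k - nn y m k))

/-- right part of a junction -/
def eR (w : ℕ → ℤ → ℤ) (k : ℕ) (j : ℤ) : ℤ := w (k + 1) (j + (aa y m k - nn y m (k + 1)))

variable {y m} {w p : ℕ → ℤ → ℤ}

theorem ee_win {k : ℕ} {j : ℤ} (h1 : nn y m k - jj y k ≤ j) (h2 : j < aa y m k) :
    ee y m w p j = w k (j - nn y m k) := by
  have hk : kk y m j = k := kk_eq y m h2 (fun i hi => by
    subst hi
    have := nn_succ y m i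
    linarith [Int.natCast_nonneg m])
  unfold ee
  rw [hk]
  cases k with
  | zero => rfl
  | succ k =>
    have : ¬ j < aa y m k + m := by
      have := nn_succ y m k
      linarith
    simp [pc, this]

theorem ee_jun {k : ℕ} {j : ℤ} (h1 : aa y m k ≤ j) (h2 : j < aa y m k + m) :
    ee y m w p j = p k (j - aa y m k) := by
  have hj : 0 ≤ jj y (k + 1) := by unfold jj; positivity
  have hk : kk y m j = k + 1 := kk_eq y m (by
    rw [aa_succ]
    linarith) (fun i hi => by
    have : i = k := by omega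
    subst this
    exact h1)
  unfold ee
  rw [hk]
  simp [pc, h2]

theorem ee_glue {k : ℕ} {j : ℤ} (h1 : nn y m k - jj y k ≤ j) (h2 : j < aa y m (k + 1)) :
    ee y m w p j = glue m (eL y m w k) (p k) (eR y m w k) (j - aa y m k) := by
  unfold glue
  split_ifs with h3 h4
  · rw [ee_win h1 (by linarith)]
    unfold eL
    congr 1
    ring
  · rw [ee_jun (by linarith) (by linarith)]
  · rw [ee_win (k := k + 1) (by
      have := nn_succ y m k
      linarith) h2]
    unfold eR
    congr 1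
    ring

theorem ee_bd {L Q : ℕ} (hLQ : L ≤ Q) (hw : ∀ k j, |w k j| ≤ L) (hp : ∀ k j, |p k j| ≤ Q) (j : ℤ) :
    |((ee y m w p j : ℤ) : ℝ)| ≤ Q := by
  have h : |ee y m w p j| ≤ Q := by
    have hLQ' : (L : ℤ) ≤ Q := by exact_mod_cast hLQ
    unfold ee
    cases kk y m j with
    | zero => exact (hw _ _).trans hLQ'
    | succ k =>
      simp only [pc]
      split_ifs
      · exact hp _ _
      · exact (hw _ _).trans hLQ'
  exact_mod_cast h

/-- Zones. -/
theorem zones {R : ℕ} (hR : R + 1 ≤ y) (n : ℤ) (hn : 0 ≤ n) :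
    ∃ k : ℕ, (nn y m k - jj y k + R ≤ n ∧ n < aa y m k - R) ∨
      (aa y m k - R ≤ n ∧ n < aa y m k + m + R) := by
  have hex : ∃ k : ℕ, n < aa y m k + m + R := by
    obtain ⟨k, hk⟩ := ex_aa y m n
    exact ⟨k, by linarith [Int.natCast_nonneg m, Int.natCast_nonneg R]⟩
  obtain ⟨k, hk, hmin⟩ : ∃ k : ℕ, n < aa y m k + m + R ∧ ∀ i, i < k → ¬ n < aa y m i + m + R :=
    ⟨Nat.find hex, Nat.find_spec hex, fun i hi => Nat.find_min hex hi⟩
  refine ⟨k, ?_⟩
  rcases lt_or_ge n (aa y m k - R) with h | h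
  · left
    refine ⟨?_, h⟩
    cases k with
    | zero =>
      have : (R : ℤ) + 1 ≤ y := by exact_mod_cast hR
      unfold nn jj
      push_cast
      linarith
    | succ k =>
      have h1 := hmin k (by omega)
      have := nn_succ y m k
      linarith
  · right
    exact ⟨h, hk⟩

end Asm

open Asm

theorem t_asm (hCVB : CVBStmt) (hJUN : JUNStmt) (hLSM : LSMStmt) : ASMStmt := by
  intro P κ C lam hK L μ hμ H
  obtain ⟨D, hD, -, hL, hR, hsh⟩ := hCVB P κ C lam hK
  obtain ⟨δ, m, R, Q, hδ, hLQ, hQR, hJ⟩ := hJUN P κ C lam hK L (μ / 4) D (by positivity) hD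
  have hl0 : 0 < lam := by linarith [hK.hl]
  have hl1 : 1 ≤ lam := hK.hl.le
  obtain ⟨y, hy, hyd⟩ : ∃ y : ℕ, R + 1 ≤ y ∧ D * Q * lam ^ R ≤ δ / 4 * lam ^ (2 * y) := by
    obtain ⟨t, ht⟩ := pow_unbounded_of_one_lt (D * Q * lam ^ R / (δ / 4)) hK.hl
    refine ⟨R + 1 + t, by omega, ?_⟩
    rw [div_lt_iff₀ (by positivity)] at ht
    have : lam ^ t ≤ lam ^ (2 * (R + 1 + t)) := pow_le_pow_right₀ hl1 (by omega)
    nlinarith [this, mul_le_mul_of_nonneg_left this (by positivity : 0 ≤ δ / 4)]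
  obtain ⟨v, hv⟩ : ∃ v : ℝ, v = max (1 / 4) (1 / 2 - min (μ / 2) (δ / 2)) := ⟨_, rfl⟩
  refine ⟨v, ?_, ?_, fun c hc => ?_⟩
  · rw [hv]
    exact lt_of_lt_of_le (by norm_num) (le_max_left _ _)
  · rw [hv]
    refine max_lt (by norm_num) ?_
    have : 0 < min (μ / 2) (δ / 2) := lt_min (by positivity) (by positivity)
    linarith
  have hvd : ∀ x : ℝ, (μ / 2 ≤ hd x ∨ δ / 2 ≤ hd x) → nr x ≤ v := by
    intro x hx
    rw [nr_eq, hv]
    refine le_trans ?_ (le_max_right _ _)
    rcases hx with hx | hx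
    · linarith [min_le_left (μ / 2) (δ / 2)]
    · linarith [min_le_right (μ / 2) (δ / 2)]
  have hc0 : 0 ≤ c := by
    have : (1 : ℝ) / 4 ≤ v := by rw [hv]; exact le_max_left _ _
    linarith [hc.1]
  choose w hw hw0 hwj using fun k : ℕ => H c (y + k)
  choose p hp hpj using fun k : ℕ => hJ (eL y m w k) (eR y m w k) (fun j => hw _ _)
    (fun j => hw _ _)
  obtain ⟨e, he⟩ : ∃ e : ℤ → ℤ, e = ee y m w p := ⟨_, rfl⟩
  have heb : ∀ j, |(e j : ℝ)| ≤ Q := fun j => by
    rw [he]
    exact ee_bd hLQ hw hp j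
  refine ⟨e, Q, heb, ?_⟩
  have hLQ' : (L : ℝ) ≤ Q := by exact_mod_cast hLQ
  have hwb : ∀ k j, |(w k j : ℝ)| ≤ Q := fun k j =>
    le_trans (by exact_mod_cast hw k j) hLQ'
  have hpb : ∀ k j, |(p k j : ℝ)| ≤ Q := fun k j => by exact_mod_cast hp k j
  have hjj : ∀ k, (y : ℤ) ≤ jj y k := fun k => by unfold jj; linarith [Int.natCast_nonneg k]
  have hyR : (R : ℤ) + 1 ≤ y := by exact_mod_cast hy
  have hDQ : 0 ≤ D * Q := by positivity
  have hz : ∀ a b : ℤ, a ≤ b → D * Q * lam ^ a ≤ D * Q * lam ^ b := fun a b hab =>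
    mul_le_mul_of_nonneg_left (zpow_le_zpow_right₀ hl1 hab) hDQ
  -- the comparison in a window
  have cw : ∀ k n, nn y m k - jj y k ≤ n → n ≤ aa y m k →
      |cv κ e n - cv κ (w k) (n - nn y m k)| ≤
        D * Q * lam ^ (n - aa y m k) + D * Q * lam ^ (nn y m k - jj y k - n) := by
    intro k n h1 h2
    have h3 : cv κ (fun j => w k (j + -nn y m k)) n = cv κ (w k) (n + -nn y m k) :=
      hsh Q (w k) (hwb k) (-nn y m k) n
    have h4 : cv κ (w k) (n - nn y m k) = cv κ (fun j => w k (j + -nn y m k)) n := by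
      rw [h3]
      rfl
    rw [h4]
    refine cmp hL hR heb (fun j => hwb _ _) (fun j h5 h6 => ?_) h1 h2
    rw [he, ee_win h5 h6]
    rfl
  -- the comparison in a junction
  have cj : ∀ k n, nn y m k - jj y k ≤ n → n ≤ aa y m (k + 1) →
      |cv κ e n - cv κ (glue m (eL y m w k) (p k) (eR y m w k)) (n - aa y m k)| ≤
        D * Q * lam ^ (n - aa y m (k + 1)) + D * Q * lam ^ (nn y m k - jj y k - n) := by
    intro k n h1 h2
    have hgb : ∀ j, |(glue m (eL y m w k) (p k) (eR y m w k) j : ℝ)| ≤ Q := by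
      intro j
      unfold glue
      split_ifs
      · exact hwb _ _
      · exact hpb _ _
      · exact hwb _ _
    have h3 := hsh Q _ hgb (-aa y m k) n
    have h4 : cv κ (glue m (eL y m w k) (p k) (eR y m w k)) (n - aa y m k) =
        cv κ (fun j => glue m (eL y m w k) (p k) (eR y m w k) (j + -aa y m k)) n := by
      rw [h3]
      rfl
    rw [h4]
    refine cmp hL hR heb (fun j => hgb _) (fun j h5 h6 => ?_) h1 h2
    rw [he, ee_glue h5 h6]
    rfl
  -- the places of a window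
  have zw : ∀ k n, nn y m k - jj y k + R ≤ n → n < aa y m k - R → n ≠ nn y m k →
      μ / 2 ≤ hd (cv κ e n) := by
    intro k n h1 h2 h3
    have h4 := cw k n (by linarith) (by linarith)
    have h5 := hwj k (n - nn y m k) (by omega) (by
      rw [abs_le]
      unfold aa at h2
      unfold jj at h1 h2
      push_cast
      constructor <;> linarith)
    have h6 := hz (n - aa y m k) (-(R : ℤ)) (by linarith)
    have h7 := hz (nn y m k - jj y k - n) (-(R : ℤ)) (by linarith)
    have h8 : D * Q * lam ^ (-(R : ℤ)) ≤ μ / 4 := by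
      rw [zpow_neg, zpow_natCast, ← div_eq_mul_inv, div_le_iff₀ (by positivity)]
      exact hQR
    have h9 := hd_ge_sub (cv κ e n) (cv κ (w k) (n - nn y m k))
    linarith
  -- the places of a junction
  have zj : ∀ k n, aa y m k - R ≤ n → n < aa y m k + m + R → δ / 2 ≤ hd (cv κ e n) := by
    intro k n h1 h2
    have q1 := hjj k
    have q2 := hjj (k + 1)
    have q3 := aa_succ y m k
    have q4 : aa y m k = nn y m k + jj y k := rfl
    have h4 := cj k n (by linarith) (by linarith)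
    have h5 := hpj k (n - aa y m k) (by linarith) (by linarith)
    have h6 := hz (n - aa y m (k + 1)) ((R : ℤ) - 2 * y) (by linarith)
    have h7 := hz (nn y m k - jj y k - n) ((R : ℤ) - 2 * y) (by linarith)
    have h8 : D * Q * lam ^ ((R : ℤ) - 2 * y) ≤ δ / 4 := by
      have e1 : lam ^ ((R : ℤ) - 2 * y) = lam ^ R / lam ^ (2 * y) := by
        rw [zpow_sub₀ hl0.ne', zpow_natCast]
        congr 1
      rw [e1, ← mul_div_assoc, div_le_iff₀ (by positivity)]
      exact hyd
    have h9 := hd_ge_sub (cv κ e n)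
      (cv κ (glue m (eL y m w k) (p k) (eR y m w k)) (n - aa y m k))
    linarith
  -- the centre of a window
  have zc : ∀ k, |nr (cv κ e (nn y m k)) - c| ≤ 2 * (D * Q * lam ^ (-(k : ℤ))) := by
    intro k
    have q1 := hjj k
    have q4 : aa y m k = nn y m k + jj y k := rfl
    have q5 : (k : ℤ) ≤ jj y k := by unfold jj; linarith [Int.natCast_nonneg y]
    have h4 := cw k (nn y m k) (by linarith [Int.natCast_nonneg y])
      (by linarith [Int.natCast_nonneg y])
    rw [sub_self] at h4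
    obtain ⟨t, ht⟩ := hw0 k
    have h5 : nr (cv κ (w k) 0) = c := by
      rw [ht, nr_add_int, nr_of_mem hc0 hc.2]
    have h6 := abs_nr_sub (cv κ e (nn y m k)) (cv κ (w k) 0)
    rw [h5] at h6
    have h7 := hz (nn y m k - aa y m k) (-(k : ℤ)) (by linarith)
    have h8 := hz (nn y m k - jj y k - nn y m k) (-(k : ℤ)) (by linarith)
    linarith
  have lim : ∀ ε : ℝ, 0 < ε → ∃ k₀ : ℕ, ∀ k, k₀ ≤ k → |nr (cv κ e (nn y m k)) - c| ≤ ε := by
    intro ε hε
    obtain ⟨t, ht⟩ := pow_unbounded_of_one_lt (2 * (D * Q) / ε) hK.hl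
    refine ⟨t, fun k hk => (zc k).trans ?_⟩
    have h1 : lam ^ t ≤ lam ^ k := pow_le_pow_right₀ hl1 hk
    rw [div_lt_iff₀ hε] at ht
    rw [zpow_neg, zpow_natCast, ← mul_assoc, ← div_eq_mul_inv, div_le_iff₀ (by positivity)]
    nlinarith
  refine hLSM _ c (fun n => ⟨nr_nonneg _, nr_le_half _⟩) (fun ε hε => ?_) (fun ε hε => ?_)
  · obtain ⟨k₀, hk₀⟩ := lim ε hε
    filter_upwards [eventually_ge_atTop (aa y m k₀).toNat] with n hn
    have hn' : aa y m k₀ ≤ (n : ℤ) := by
      have := Int.self_le_toNat (aa y m k₀)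
      have h2 : ((aa y m k₀).toNat : ℤ) ≤ n := by exact_mod_cast hn
      linarith
    obtain ⟨k, hk⟩ := zones (m := m) hy (n : ℤ) (Int.natCast_nonneg n)
    rcases hk with ⟨h1, h2⟩ | ⟨h1, h2⟩
    · by_cases h3 : (n : ℤ) = nn y m k
      · have h4 : k₀ ≤ k := by
          by_contra h5
          rw [not_le] at h5
          have h6 := aa_mono y m h5.le
          linarith [Int.natCast_nonneg R]
        have := abs_le.1 (hk₀ k h4)
        rw [← h3] at this
        linarith [this.2]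
      · have := hvd _ (Or.inl (zw k n h1 h2 h3))
        linarith [hc.1]
    · have := hvd _ (Or.inr (zj k n h1 h2))
      linarith [hc.1]
  · obtain ⟨k₀, hk₀⟩ := lim ε hε
    rw [frequently_atTop]
    intro a
    have h1 : (0 : ℤ) ≤ nn y m (max k₀ a) := (Int.natCast_nonneg _).trans (le_nn y m _)
    refine ⟨(nn y m (max k₀ a)).toNat, ?_, ?_⟩
    · have h2 := le_nn y m (max k₀ a)
      have h3 : (a : ℤ) ≤ ((max k₀ a : ℕ) : ℤ) := by exact_mod_cast le_max_right k₀ a
      have h4 : (a : ℤ) ≤ (nn y m (max k₀ a)).toNat := by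
        rw [Int.toNat_of_nonneg h1]
        exact h3.trans h2
      exact_mod_cast h4
    · have := abs_le.1 (hk₀ (max k₀ a) (le_max_left _ _))
      rw [Int.toNat_of_nonneg h1]
      linarith [this.1]

end Pool.LSP
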