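import Pool.Agent.H85.LSP.Nr

/-!
# LSP, modules CVB, REP, DIG: the convolution with the kernel
-/

set_option autoImplicit false

namespace Pool.LSP

open Polynomial Filter Topology Finset

namespace Cvb

theorem smm {lam : ℝ} (h : 1 < lam) : Summable (fun j : ℤ => lam ^ (-|j|)) := by
  have h0 : 0 < lam := by linarith
  have hg : Summable (fun n : ℕ => (lam⁻¹) ^ n) :=
    summable_geometric_of_lt_one (by positivity) (inv_lt_one_of_one_lt₀ h)
  refine Summable.of_nat_of_neg ?_ ?_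
  · refine hg.congr fun n => ?_
    rw [Nat.abs_cast, zpow_neg, zpow_natCast, inv_pow]
  · refine hg.congr fun n => ?_
    rw [abs_neg, Nat.abs_cast, zpow_neg, zpow_natCast, inv_pow]

theorem smm_sub {lam : ℝ} (h : 1 < lam) (b : ℤ) : Summable (fun j : ℤ => lam ^ (-|b - j|)) :=
  (smm h).comp_injective (i := fun j : ℤ => b - j) (fun x y hxy => by simpa using hxy)

theorem tsum_sub {lam : ℝ} (b : ℤ) :
    ∑' j : ℤ, lam ^ (-|b - j|) = ∑' j : ℤ, lam ^ (-|j|) :=
  (Equiv.subLeft b).tsum_eq (fun j : ℤ => lam ^ (-|j|))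

variable {P : ℤ[X]} {κ : ℤ → ℝ} {C lam : ℝ}

theorem smb (hK : Ker P κ C lam) {s : ℤ → ℝ} {D : ℝ} (hs : ∀ j, |s j| ≤ D) (n : ℤ) :
    Summable (fun j : ℤ => κ (n - j) * s j) := by
  refine Summable.of_norm_bounded ((smm_sub hK.hl n).mul_left (C * D)) fun j => ?_
  rw [Real.norm_eq_abs, abs_mul]
  have h1 := hK.dec (n - j)
  have h2 := mul_le_mul h1 (hs j) (abs_nonneg _) (le_trans (abs_nonneg _) h1)
  calc |κ (n - j)| * |s j| ≤ C * lam ^ (-|n - j|) * D := h2
    _ = C * D * lam ^ (-|n - j|) := by ring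

/-- The convolution of the kernel with a bounded sequence solves the equation. -/
theorem sol_cv (hK : Ker P κ C lam) {s : ℤ → ℝ} {D : ℝ} (hs : ∀ j, |s j| ≤ D) (n : ℤ) :
    Pr P (fun n => ∑' j : ℤ, κ (n - j) * s j) n = s n := by
  unfold Pr
  have h1 : ∀ i : ℕ, (P.coeff i : ℝ) * ∑' j : ℤ, κ (n + i - j) * s j =
      ∑' j : ℤ, (P.coeff i : ℝ) * (κ (n + i - j) * s j) := fun i => by rw [tsum_mul_left]
  simp only [h1]
  have h0 := Summable.tsum_finsetSum (s := range (P.natDegree + 1))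
    (f := fun (i : ℕ) (j : ℤ) => (P.coeff i : ℝ) * (κ (n + i - j) * s j))
    (fun i _ => (smb hK hs (n + i)).mul_left _)
  rw [← h0]
  have h2 : ∀ j : ℤ, ∑ i ∈ range (P.natDegree + 1), (P.coeff i : ℝ) * (κ (n + i - j) * s j) =
      if j = n then s n else 0 := by
    intro j
    have h3 : ∑ i ∈ range (P.natDegree + 1), (P.coeff i : ℝ) * (κ (n + i - j) * s j) =
        Pr P κ (n - j) * s j := by
      unfold Pr
      rw [Finset.sum_mul]
      refine Finset.sum_congr rfl fun i _ => ?_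
      have : n + (i : ℤ) - j = n - j + i := by ring
      rw [this]
      ring
    rw [h3, hK.sol]
    by_cases hj : j = n
    · subst hj
      simp
    · have : n - j ≠ 0 := fun h => hj (by omega)
      simp [this, hj]
  simp only [h2]
  rw [tsum_eq_single n (fun j hj => by simp [hj])]
  simp

theorem bd (hK : Ker P κ C lam) {L : ℝ} {e e' : ℤ → ℤ} (he : ∀ j, |(e j : ℝ)| ≤ L)
    (he' : ∀ j, |(e' j : ℝ)| ≤ L) {n b : ℤ} {c : ℝ} (hc : 0 ≤ c)
    (h : ∀ j, e j ≠ e' j → lam ^ (-|n - j|) ≤ c * lam ^ (-|b - j|)) :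
    |cv κ e n - cv κ e' n| ≤ 2 * C * (∑' j : ℤ, lam ^ (-|j|)) * L * c := by
  have hL : 0 ≤ L := (abs_nonneg _).trans (he 0)
  have hC := hK.hC
  have hl0 : 0 < lam := by linarith [hK.hl]
  have h1 := smb hK he n
  have h2 := smb hK he' n
  have h3 : cv κ e n - cv κ e' n = ∑' j : ℤ, (κ (n - j) * e j - κ (n - j) * e' j) := by
    unfold cv
    rw [h1.tsum_sub h2]
  have h4 : ∀ j : ℤ, ‖κ (n - j) * e j - κ (n - j) * e' j‖ ≤
      2 * C * L * c * lam ^ (-|b - j|) := by
    intro j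
    by_cases hj : e j = e' j
    · rw [hj, sub_self, norm_zero]
      positivity
    · have h5 : κ (n - j) * e j - κ (n - j) * e' j = κ (n - j) * (e j - e' j) := by ring
      have h6 : |(e j : ℝ) - e' j| ≤ 2 * L := by
        have := abs_sub (e j : ℝ) (e' j)
        linarith [he j, he' j]
      rw [h5, Real.norm_eq_abs, abs_mul]
      have h7 := (hK.dec (n - j)).trans (mul_le_mul_of_nonneg_left (h j hj) hC.le)
      have h8 := mul_le_mul h7 h6 (abs_nonneg _) (by positivity)
      calc |κ (n - j)| * |(e j : ℝ) - e' j| ≤ C * (c * lam ^ (-|b - j|)) * (2 * L) := h8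
        _ = 2 * C * L * c * lam ^ (-|b - j|) := by ring
  have h5 := tsum_of_norm_bounded ((smm_sub hK.hl b).mul_left (2 * C * L * c)).hasSum h4
  rw [tsum_mul_left, tsum_sub, Real.norm_eq_abs] at h5
  rw [h3]
  calc _ ≤ _ := h5
    _ = _ := by ring

end Cvb

open Cvb

theorem t_cvb : CVBStmt := by
  intro P κ C lam hK
  have hl0 : 0 < lam := by linarith [hK.hl]
  have hC := hK.hC
  have hE : 0 < ∑' j : ℤ, lam ^ (-|j|) :=
    (smm hK.hl).tsum_pos (fun j => by positivity) 0 (by simp)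
  refine ⟨2 * C * ∑' j : ℤ, lam ^ (-|j|), by positivity, ?_, ?_, ?_, ?_⟩
  · intro L e he n
    exact sol_cv hK he n
  · intro L e e' he he' b h n hn
    refine bd hK he he' (b := b) (by positivity) fun j hj => ?_
    have hjb : b ≤ j := by
      by_contra h1
      exact hj (h j (not_le.1 h1))
    rw [← zpow_add₀ hl0.ne']
    apply le_of_eq
    congr 1
    rw [abs_of_nonpos (by linarith : n - j ≤ 0), abs_of_nonpos (by linarith : b - j ≤ 0)]
    ring
  · intro L e e' he he' a h n hn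
    refine bd hK he he' (b := a) (by positivity) fun j hj => ?_
    have hjb : j < a := by
      by_contra h1
      exact hj (h j (not_lt.1 h1))
    rw [← zpow_add₀ hl0.ne']
    apply le_of_eq
    congr 1
    rw [abs_of_nonneg (by linarith : 0 ≤ n - j), abs_of_nonneg (by linarith : 0 ≤ a - j)]
    ring
  · intro L e he a n
    unfold cv
    rw [← (Equiv.addRight a).tsum_eq (fun j : ℤ => κ (n + a - j) * (e j : ℝ))]
    refine tsum_congr fun j => ?_
    simp only [Equiv.coe_addRight]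
    congr 2
    ring

theorem t_rep : REPStmt := by
  intro P κ C lam hK s D hs n
  have h1 : ∀ j : ℤ, κ (n - j) * Pr P s j =
      ∑ i ∈ range (P.natDegree + 1), (P.coeff i : ℝ) * (κ (n - j) * s (j + i)) := by
    intro j
    unfold Pr
    rw [Finset.mul_sum]
    refine Finset.sum_congr rfl fun i _ => ?_
    ring
  have h2 : ∀ i : ℕ, Summable (fun j : ℤ => κ (n - j) * s (j + i)) := fun i =>
    smb hK (s := fun j => s (j + i)) (fun j => hs _) n
  have h3 : ∀ i : ℕ, ∑' j : ℤ, κ (n - j) * s (j + i) = ∑' j : ℤ, κ (n + i - j) * s j := by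
    intro i
    rw [← (Equiv.addRight (i : ℤ)).tsum_eq (fun j : ℤ => κ (n + i - j) * s j)]
    refine tsum_congr fun j => ?_
    simp only [Equiv.coe_addRight]
    congr 2
    ring
  simp only [h1]
  rw [Summable.tsum_finsetSum (fun i _ => (h2 i).mul_left _)]
  have h4 := sol_cv hK hs n
  unfold Pr at h4
  rw [← h4]
  refine Finset.sum_congr rfl fun i _ => ?_
  rw [tsum_mul_left, h3]

theorem t_dig : DIGStmt := by
  intro P κ C lam hK
  obtain ⟨L, hL⟩ : ∃ L : ℕ, L = ∑ i ∈ range (P.natDegree + 1), (P.coeff i).natAbs := ⟨_, rfl⟩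
  refine ⟨L, fun x hx => ?_⟩
  obtain ⟨e, he⟩ : ∃ e : ℤ → ℤ, e = fun j =>
    -∑ i ∈ range (P.natDegree + 1), P.coeff i * round (x (j + i)) := ⟨_, rfl⟩
  obtain ⟨s, hs⟩ : ∃ s : ℤ → ℝ, s = fun j => x j - round (x j) := ⟨_, rfl⟩
  have hsb : ∀ j, |s j| ≤ 1 / 2 := fun j => by
    rw [hs]
    exact abs_sub_round _
  have hse : ∀ j, Pr P s j = e j := by
    intro j
    have h1 := hx j
    unfold Pr at h1 ⊢
    rw [hs, he]
    push_cast
    have h2 : ∀ i : ℕ, (P.coeff i : ℝ) * (x (j + i) - round (x (j + i))) =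
        (P.coeff i : ℝ) * x (j + i) - (P.coeff i : ℝ) * round (x (j + i)) := fun i => by ring
    simp only [h2]
    rw [Finset.sum_sub_distrib, h1, zero_sub]
  have heb : ∀ j, |e j| ≤ L := by
    intro j
    have h1 : |(e j : ℝ)| ≤ (L : ℝ) := by
      rw [← hse, hL]
      unfold Pr
      push_cast
      refine (Finset.abs_sum_le_sum_abs _ _).trans (Finset.sum_le_sum fun i _ => ?_)
      have h4 : ((P.coeff i).natAbs : ℝ) = |(P.coeff i : ℝ)| := by
        rw [Nat.cast_natAbs, Int.cast_abs]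
      rw [abs_mul, h4]
      have h2 := hsb (j + i)
      have h3 : (0 : ℝ) ≤ |(P.coeff i : ℝ)| := abs_nonneg _
      nlinarith
    exact_mod_cast h1
  refine ⟨e, heb, fun n => ⟨-round (x n), ?_⟩⟩
  have h1 := t_rep P κ C lam hK s (1 / 2) hsb n
  have h2 : cv κ e n = s n := by
    rw [h1]
    unfold cv
    refine tsum_congr fun j => ?_
    rw [hse]
  rw [h2, hs]
  push_cast
  ring

end Pool.LSP
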