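import Pool.Agent.H17.LSP.RTS

/-!
# LSP, modules MEM, OUT, TH1: elements of `Xi P k`, facts on the roots, first theorem
-/

set_option autoImplicit false

namespace Pool.LSP

open Polynomial Filter Topology Finset
open scoped ComplexConjugate

namespace Mem

open Rts

theorem mem_out {P : ℤ[X]} {α : ℂ} : α ∈ Out P ↔ α ∈ Rt P ∧ 1 < ‖α‖ := by
  unfold Out
  rw [Finset.mem_filter, Multiset.mem_toFinset]

theorem conj_out {P : ℤ[X]} {α : ℂ} (h : α ∈ Out P) : conj α ∈ Out P := by
  rw [mem_out] at h ⊢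
  exact ⟨conj_rt h.1, by rw [Complex.norm_conj]; exact h.2⟩

theorem conj_out_iff {P : ℤ[X]} {α : ℂ} : conj α ∈ Out P ↔ α ∈ Out P := by
  refine ⟨fun h => ?_, conj_out⟩
  have := conj_out h
  rwa [Complex.conj_conj] at this

theorem pc_ne {P : ℤ[X]} (h : P ≠ 0) : PC P ≠ 0 := by
  unfold PC
  rw [Ne, Polynomial.map_eq_zero_iff (Int.cast_injective (α := ℂ))]
  exact h

theorem rt_le {P Q : ℤ[X]} (h : P ≠ 0) (hQ : Q ∣ P) : Rt Q ≤ Rt P := by
  rw [rt_eq, rt_eq]
  refine Polynomial.roots.le_of_dvd (pc_ne h) ?_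
  unfold PC
  exact Polynomial.map_dvd _ hQ

theorem out_sub {P Q : ℤ[X]} (h : P ≠ 0) (hQ : Q ∣ P) : Out Q ⊆ Out P := by
  intro α hα
  rw [mem_out] at hα ⊢
  exact ⟨Multiset.mem_of_le (rt_le h hQ) hα.1, hα.2⟩

theorem adm_ne {P : ℤ[X]} (h : Adm P) : P ≠ 0 := by
  rintro rfl
  exact h.zero (by simp)

end Mem

open Rts Mem

theorem t_mem : MEMStmt := by
  classical
  intro P k
  refine ⟨fun β hβ q hq => ?_, fun g g' hg hg' => ⟨fun α hα => ⟨?_, ?_⟩, fun n => ?_⟩⟩
  · obtain ⟨a, ha⟩ : ∃ a : ℂ → ℂ[X], a = fun α => if α = β then q else 0 := ⟨_, rfl⟩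
    obtain ⟨b, hb⟩ : ∃ b : ℂ → ℂ[X], b = fun α => if α = conj β then q.map (starRingEnd ℂ) else 0 :=
      ⟨_, rfl⟩
    have hab : ∀ α, b (conj α) = (a α).map (starRingEnd ℂ) := by
      intro α
      rw [ha, hb]
      dsimp only
      by_cases h : α = β
      · rw [if_pos h, if_pos (by rw [h])]
      · have h' : ¬ conj α = conj β := fun h' => h (by
          have := congrArg (starRingEnd ℂ) h'
          rwa [Complex.conj_conj, Complex.conj_conj] at this)
        rw [if_neg h, if_neg h', Polynomial.map_zero]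
    have hba : ∀ α, a (conj α) = (b α).map (starRingEnd ℂ) := by
      intro α
      have h1 := hab (conj α)
      rw [Complex.conj_conj] at h1
      rw [h1, Polynomial.map_map]
      have h2 : (starRingEnd ℂ).comp (starRingEnd ℂ) = RingHom.id ℂ := by
        ext z
        exact Complex.conj_conj z
      rw [h2, Polynomial.map_id]
    have hda : ∀ α, (a α).natDegree ≤ k := by
      intro α
      rw [ha]
      dsimp only
      split_ifs
      · exact hq
      · simp
    have hdb : ∀ α, (b α).natDegree ≤ k := by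
      intro α
      rw [hb]
      dsimp only
      split_ifs
      · exact natDegree_map_le.trans hq
      · simp
    refine ⟨fun α => C (1 / 2) * (a α + b α), fun α _ => ⟨?_, ?_⟩, fun n => ?_⟩
    · exact (natDegree_C_mul_le _ _).trans
        ((natDegree_add_le _ _).trans (max_le (hda α) (hdb α)))
    · dsimp only
      rw [hab, hba, Polynomial.map_mul, Polynomial.map_add, Polynomial.map_C, add_comm]
      congr 2
      rw [map_div₀, map_one, map_ofNat]
    · unfold xs
      have e1 : ∀ α : ℂ, (C (1 / 2) * (a α + b α)).eval (n : ℂ) * α ^ n =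
          1 / 2 * ((if α = β then q.eval (n : ℂ) * α ^ n else 0) +
            (if α = conj β then (q.map (starRingEnd ℂ)).eval (n : ℂ) * α ^ n else 0)) := by
        intro α
        rw [eval_mul, eval_C, eval_add, ha, hb]
        dsimp only
        split_ifs <;> simp <;> ring
      simp only [e1]
      rw [← Finset.mul_sum, Finset.sum_add_distrib, Finset.sum_ite_eq', Finset.sum_ite_eq',
        if_pos hβ, if_pos (conj_out hβ)]
      have e2 : (q.map (starRingEnd ℂ)).eval (n : ℂ) * (conj β) ^ n =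
          conj (q.eval (n : ℂ) * β ^ n) := by
        rw [map_mul, map_pow]
        congr 1
        have h1 := Polynomial.eval₂_hom (p := q) (starRingEnd ℂ) (n : ℂ)
        rw [← h1, eval_map]
        congr 1
        exact (Complex.conj_natCast n).symm
      rw [e2, Complex.add_conj]
      have e3 : (1 / 2 : ℂ) * (((2 * (q.eval (n : ℂ) * β ^ n).re : ℝ)) : ℂ) =
          (((q.eval (n : ℂ) * β ^ n).re : ℝ) : ℂ) := by
        push_cast
        ring
      rw [e3, Complex.ofReal_re]
  · exact (natDegree_add_le _ _).trans (max_le (hg α hα).1 (hg' α hα).1)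
  · dsimp only
    rw [(hg α hα).2, (hg' α hα).2, Polynomial.map_add]
  · unfold xs
    rw [← Complex.add_re, ← Finset.sum_add_distrib]
    congr 1
    refine Finset.sum_congr rfl fun α _ => ?_
    rw [eval_add]
    ring

theorem t_out : OUTStmt := by
  classical
  refine ⟨fun P hP => ?_, fun P Q hP hQ hγ => ?_, fun P Q hP hQ k c hc => ?_⟩
  · have h0 := adm_ne hP
    have hu : ¬ IsUnit P := fun h => by
      have := Polynomial.natDegree_eq_zero_of_isUnit h
      have := hP.deg
      omega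
    obtain ⟨Q, hQ, hQP⟩ := WfDvdMonoid.exists_irreducible_factor hu h0
    obtain ⟨α, hα⟩ := hP.out Q hQ hQP
    exact ⟨α, out_sub h0 hQP hα⟩
  · have h0 := adm_ne hP
    have hQ0 : Q ≠ 0 := fun h => h0 (by rw [h] at hQ; exact zero_dvd_iff.1 hQ)
    refine ⟨Multiset.nodup_of_le (rt_le h0 hQ) hP.nodup, ?_, ?_⟩
    · obtain ⟨R, rfl⟩ := hQ
      have := hP.zero
      rw [Polynomial.mul_coeff_zero] at this
      exact left_ne_zero_of_mul this
    · have hu : ¬ IsUnit Q := fun h => by
        obtain ⟨γ, hγ⟩ := hγ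
        rw [rt_eq] at hγ
        have h1 : IsUnit (PC Q) := h.map (Polynomial.mapRingHom (Int.castRingHom ℂ))
        have h2 := Polynomial.natDegree_eq_zero_of_isUnit h1
        rw [Polynomial.eq_C_of_natDegree_eq_zero h2, roots_C] at hγ
        exact absurd hγ (Multiset.notMem_zero γ)
      obtain ⟨R, hR, hRQ⟩ := WfDvdMonoid.exists_irreducible_factor hu hQ0
      obtain ⟨α, hα⟩ := hP.out R hR (hRQ.trans hQ)
      have := mem_out.1 (out_sub hQ0 hRQ hα)
      exact ⟨α, this.1, this.2⟩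
  · obtain ⟨g, hg, hlim⟩ := hc
    have hQ0 : Q ≠ 0 := fun h => hP (by rw [h] at hQ; exact zero_dvd_iff.1 hQ)
    refine ⟨fun α => if α ∈ Out Q then g α else 0, fun α _ => ?_, ?_⟩
    · dsimp only
      by_cases h : α ∈ Out Q
      · rw [if_pos h, if_pos (conj_out h)]
        exact hg α h
      · rw [if_neg h, if_neg (fun h' => h (conj_out_iff.1 h'))]
        simp
    · rw [← hlim]
      congr 1
      funext n
      congr 1
      unfold xs
      congr 1
      have e1 : ∀ α : ℂ, (if α ∈ Out Q then g α else 0).eval (n : ℂ) * α ^ n =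
          if α ∈ Out Q then (g α).eval (n : ℂ) * α ^ n else 0 := by
        intro α
        split_ifs <;> simp
      simp only [e1]
      rw [← Finset.sum_filter]
      congr 1
      ext α
      rw [Finset.mem_filter]
      exact ⟨fun h => h.2, fun h => ⟨out_sub hP hQ h, h⟩⟩

theorem t_th1 (hFAA : FAAStmt) (hFAB : FABStmt) : TH1Stmt := by
  intro P hP
  have hfab : ∀ β ∈ Out P, ∀ γ ∈ Out P, ‖γ‖ < ‖β‖ → ∀ k : ℕ, Ter P k := by
    intro β hβ γ hγ h k
    obtain ⟨v, hv0, hv1, hv⟩ := hFAB β γ (mem_out.1 hγ).2 h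
    refine ⟨v, hv0, hv1, fun c hc => ?_⟩
    obtain ⟨A, A', hlim⟩ := hv c hc
    obtain ⟨m1, m2⟩ := t_mem P k
    obtain ⟨g, hg, hgx⟩ := m1 β hβ (C A) (by simp)
    obtain ⟨g', hg', hgx'⟩ := m1 γ hγ (C A') (by simp)
    obtain ⟨h1, h2⟩ := m2 g g' hg hg'
    refine ⟨_, h1, ?_⟩
    rw [← hlim]
    congr 1
    funext n
    rw [h2, hgx, hgx', eval_C, eval_C, ← Complex.add_re]
  refine ⟨fun k hk => ?_, ?_⟩
  · obtain ⟨β, hβ⟩ := t_out.1 P hP
    obtain ⟨v, hv0, hv1, hv⟩ := hFAA β (mem_out.1 hβ).2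
    refine ⟨v, hv0, hv1, fun c hc => ?_⟩
    obtain ⟨A, A', hlim⟩ := hv c hc
    obtain ⟨g, hg, hgx⟩ := (t_mem P k).1 β hβ (C A + C A' * X) (by
      refine (natDegree_add_le _ _).trans (max_le (by simp) ?_)
      exact (natDegree_C_mul_le _ _).trans (natDegree_X_le.trans hk))
    refine ⟨g, hg, ?_⟩
    rw [← hlim]
    congr 1
    funext n
    rw [hgx]
    simp
  · rintro ⟨β, hβ, γ, hγ, hne⟩ k
    rcases lt_or_gt_of_ne hne with h | h
    · exact hfab γ hγ β hβ h k
    · exact hfab β hβ γ hγ h k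

end Pool.LSP
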