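import Pool.Agent.H85.LSP.Nr

/-!
# LSP, modules RTS, CNV: solutions of the recurrence

`t_rts`: a real solution of the recurrence is a sum over the roots. `t_cnv`: from a solution modulo
one to an element of `Xi P 0`.
-/

set_option autoImplicit false

namespace Pool.LSP

open Polynomial Filter Topology Finset
open scoped ComplexConjugate

namespace Rts

/-- the polynomial over the complex numbers -/
noncomputable def PC (P : ℤ[X]) : ℂ[X] := P.map (Int.castRingHom ℂ)

theorem rt_eq (P : ℤ[X]) : Rt P = (PC P).roots := rfl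

/-- the functional -/
noncomputable def Ph (z : ℕ → ℂ) : ℂ[X] →ₗ[ℂ] ℂ := Polynomial.lsum (fun n => z n • LinearMap.id)

theorem Ph_mon (z : ℕ → ℂ) (a : ℂ) (n : ℕ) : Ph z (monomial n a) = a * z n := by
  unfold Ph
  change (monomial n a : ℂ[X]).sum (fun n a => (z n • (LinearMap.id : ℂ →ₗ[ℂ] ℂ)) a) = _
  rw [Polynomial.sum_monomial_index _ _ (by simp)]
  simp [mul_comm]

theorem Ph_X (z : ℕ → ℂ) (n : ℕ) : Ph z (X ^ n) = z n := by
  rw [X_pow_eq_monomial, Ph_mon, one_mul]

theorem Ph_C (z : ℕ → ℂ) (a : ℂ) (f : ℂ[X]) : Ph z (C a * f) = a * Ph z f := by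
  rw [← smul_eq_C_mul, map_smul, smul_eq_mul]

theorem Ph_kill {P : ℤ[X]} {z : ℕ → ℂ}
    (h : ∀ n : ℕ, ∑ i ∈ range (P.natDegree + 1), (P.coeff i : ℂ) * z (n + i) = 0) (f : ℂ[X]) :
    Ph z (f * PC P) = 0 := by
  induction f using Polynomial.induction_on' with
  | add p q hp hq => rw [add_mul, map_add, hp, hq, add_zero]
  | monomial n a =>
    have h1 : (PC P) = ∑ i ∈ range (P.natDegree + 1), monomial i (P.coeff i : ℂ) := by
      have h2 : (PC P).natDegree < P.natDegree + 1 :=
        Nat.lt_succ_of_le (natDegree_map_le)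
      rw [Polynomial.as_sum_range' (PC P) (P.natDegree + 1) h2]
      refine Finset.sum_congr rfl fun i _ => ?_
      unfold PC
      simp
    rw [h1, Finset.mul_sum, map_sum]
    have h3 : ∀ i : ℕ, Ph z (monomial n a * monomial i (P.coeff i : ℂ)) =
        a * ((P.coeff i : ℂ) * z (n + i)) := by
      intro i
      rw [monomial_mul_monomial, Ph_mon, mul_assoc]
    simp only [h3]
    rw [← Finset.mul_sum, h n, mul_zero]

theorem pc_monic {P : ℤ[X]} (h : P.Monic) : (PC P).Monic := h.map _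

theorem pc_dvd {P : ℤ[X]} (hm : P.Monic) (hn : (Rt P).Nodup) {g : ℂ[X]}
    (h : ∀ α ∈ Rt P, g.eval α = 0) : PC P ∣ g := by
  rcases eq_or_ne g 0 with rfl | hg
  · exact dvd_zero _
  rw [(IsAlgClosed.splits (PC P)).eq_prod_roots_of_monic (pc_monic hm)]
  rw [Multiset.prod_X_sub_C_dvd_iff_le_roots hg]
  refine (Multiset.le_iff_subset hn).2 fun α hα => ?_
  rw [mem_roots hg]
  exact h α hα

theorem sum_rt {P : ℤ[X]} (hn : (Rt P).Nodup) (f : ℂ → ℂ) :
    ∑ α ∈ (Rt P).toFinset, f α = ((Rt P).map f).sum := by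
  unfold Finset.sum
  rw [Multiset.toFinset_val, hn.dedup]

theorem rts_ex {P : ℤ[X]} (hm : P.Monic) (hn : (Rt P).Nodup) {z : ℕ → ℂ}
    (h : ∀ n : ℕ, ∑ i ∈ range (P.natDegree + 1), (P.coeff i : ℂ) * z (n + i) = 0) :
    ∃ c : ℂ → ℂ, ∀ n : ℕ, z n = ∑ α ∈ (Rt P).toFinset, c α * α ^ n := by
  classical
  obtain ⟨S, hS⟩ : ∃ S : Finset ℂ, S = (Rt P).toFinset := ⟨_, rfl⟩
  rw [← hS]
  refine ⟨fun α => Ph z (Lagrange.basis S id α), fun n => ?_⟩
  obtain ⟨g, hg⟩ : ∃ g : ℂ[X], g = X ^ n - ∑ α ∈ S, C (α ^ n) * Lagrange.basis S id α := ⟨_, rfl⟩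
  have h1 : PC P ∣ g := by
    refine pc_dvd hm hn fun β hβ => ?_
    have hβS : β ∈ S := by rw [hS]; exact Multiset.mem_toFinset.2 hβ
    have h2 := Lagrange.eval_interpolate_at_node (v := (id : ℂ → ℂ)) (fun α => α ^ n)
      (Set.injOn_id _) hβS
    rw [Lagrange.interpolate_apply] at h2
    rw [hg, eval_sub, eval_pow, eval_X]
    simp only [id] at h2
    rw [sub_eq_zero]
    exact h2.symm
  obtain ⟨f, hf⟩ := h1
  have h3 : Ph z g = 0 := by
    rw [hf, mul_comm]
    exact Ph_kill h f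
  rw [hg, map_sub, Ph_X, map_sum, sub_eq_zero] at h3
  rw [h3]
  refine Finset.sum_congr rfl fun α _ => ?_
  rw [Ph_C, mul_comm]

theorem conj_rt {P : ℤ[X]} {α : ℂ} (h : α ∈ Rt P) : conj α ∈ Rt P := by
  rw [rt_eq] at h ⊢
  have h0 : PC P ≠ 0 := by
    intro h0
    rw [h0] at h
    simp at h
  rw [mem_roots h0, IsRoot.def] at h ⊢
  unfold PC at h ⊢
  rw [eval_map] at h ⊢
  have h1 := Polynomial.hom_eval₂ P (Int.castRingHom ℂ) (starRingEnd ℂ) α
  rw [h, map_zero] at h1
  have h2 : (starRingEnd ℂ).comp (Int.castRingHom ℂ) = Int.castRingHom ℂ := RingHom.ext_int _ _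
  rw [h2] at h1
  exact h1.symm

end Rts

open Rts

theorem t_rts : RTSStmt := by
  classical
  intro P hm hn z hz
  obtain ⟨c, hc⟩ := rts_ex hm hn (z := fun n => (z n : ℂ)) (fun n => by
    have := hz n
    exact_mod_cast this)
  refine ⟨fun α => (c α + conj (c (conj α))) / 2, fun α _ => ?_, fun n => ?_⟩
  · simp only [Complex.conj_conj, map_div₀, map_add, map_ofNat]
    rw [add_comm]
  · rw [← sum_rt hn]
    have h1 : ∑ α ∈ (Rt P).toFinset, conj (c (conj α)) * α ^ n = (z n : ℂ) := by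
      have h2 : ∑ α ∈ (Rt P).toFinset, conj (c (conj α)) * α ^ n =
          ∑ α ∈ (Rt P).toFinset, conj (c α * α ^ n) := by
        refine Finset.sum_bij' (fun α _ => conj α) (fun α _ => conj α) ?_ ?_ ?_ ?_ ?_
        · intro α hα
          exact Multiset.mem_toFinset.2 (conj_rt (Multiset.mem_toFinset.1 hα))
        · intro α hα
          exact Multiset.mem_toFinset.2 (conj_rt (Multiset.mem_toFinset.1 hα))
        · intro α _
          exact Complex.conj_conj α
        · intro α _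
          exact Complex.conj_conj α
        · intro α _
          rw [map_mul, map_pow, Complex.conj_conj]
      rw [h2, ← map_sum, ← hc n, Complex.conj_ofReal]
    have h3 : ∀ α : ℂ, (c α + conj (c (conj α))) / 2 * α ^ n =
        (c α * α ^ n + conj (c (conj α)) * α ^ n) / 2 := fun α => by ring
    simp only [h3]
    rw [← Finset.sum_div, Finset.sum_add_distrib, h1, ← hc n]
    ring

namespace Rts

/-- partial solutions -/
def Qs (P : ℤ[X]) (e : ℕ → ℤ) : ℕ → ℕ → ℤ
  | 0 => fun _ => 0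
  | k + 1 => Function.update (Qs P e k) (k + P.natDegree)
      (e k - ∑ i ∈ range P.natDegree, P.coeff i * Qs P e k (k + i))

theorem qs_stab {P : ℤ[X]} {e : ℕ → ℤ} {k l j : ℕ} (h : j < k + P.natDegree) (hkl : k ≤ l) :
    Qs P e l j = Qs P e k j := by
  induction l, hkl using Nat.le_induction with
  | base => rfl
  | succ l hl ih =>
    rw [← ih, Qs, Function.update_of_ne (by omega)]

theorem q_ex {P : ℤ[X]} (hm : P.Monic) (e : ℕ → ℤ) : ∃ q : ℕ → ℤ, ∀ n : ℕ,
    ∑ i ∈ range (P.natDegree + 1), P.coeff i * q (n + i) = e n := by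
  refine ⟨fun j => Qs P e (j + 1) j, fun n => ?_⟩
  dsimp only
  rw [Finset.sum_range_succ, hm.coeff_natDegree, one_mul]
  have h1 : Qs P e (n + P.natDegree + 1) (n + P.natDegree) =
      e n - ∑ i ∈ range P.natDegree, P.coeff i * Qs P e n (n + i) := by
    rw [qs_stab (k := n + 1) (by omega) (by omega), Qs, Function.update_self]
  rw [h1]
  have h2 : ∑ i ∈ range P.natDegree, P.coeff i * Qs P e (n + i + 1) (n + i) =
      ∑ i ∈ range P.natDegree, P.coeff i * Qs P e n (n + i) := by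
    refine Finset.sum_congr rfl fun i hi => ?_
    rw [Finset.mem_range] at hi
    rw [qs_stab (k := n) (by omega) (by omega)]
  rw [h2]
  ring

end Rts

theorem t_cnv : CNVStmt := by
  classical
  intro P hm hn hH s hs
  choose e he using fun n : ℕ => hs n (Int.natCast_nonneg n)
  obtain ⟨q, hq⟩ := q_ex hm e
  obtain ⟨z, hz⟩ : ∃ z : ℕ → ℝ, z = fun n : ℕ => s n - q n := ⟨_, rfl⟩
  obtain ⟨c, hc, hcz⟩ := t_rts P hm hn z (fun n => by
    have h1 := he n
    have h2 := hq n
    unfold Pr at h1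
    rw [← h2] at h1
    push_cast at h1
    rw [hz]
    have h3 : ∀ i : ℕ, (P.coeff i : ℝ) * (s ((n + i : ℕ) : ℤ) - (q (n + i) : ℝ)) =
        (P.coeff i : ℝ) * s ((n : ℤ) + i) - (P.coeff i : ℝ) * q (n + i) := fun i => by
      push_cast
      ring
    simp only [h3]
    rw [Finset.sum_sub_distrib, h1, sub_self])
  refine ⟨fun α => C (c α), fun α hα => ⟨by simp, ?_⟩, ?_⟩
  · have hα' : α ∈ Rt P := by
      unfold Out at hα
      exact Multiset.mem_toFinset.1 (Finset.mem_filter.1 hα).1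
    change C (c (conj α)) = (C (c α)).map (starRingEnd ℂ)
    rw [hc α hα', Polynomial.map_C]
  · have hre : ∀ n : ℕ, z n = (∑ α ∈ (Rt P).toFinset, c α * α ^ n).re := fun n => by
      rw [sum_rt hn, ← hcz n, Complex.ofReal_re]
    have hx : ∀ n : ℕ, xs P (fun α => C (c α)) n = (∑ α ∈ Out P, c α * α ^ n).re := fun n => by
      unfold xs
      simp
    obtain ⟨T, hT⟩ : ∃ T : Finset ℂ, T = (Rt P).toFinset.filter (fun α => ¬ 1 < ‖α‖) := ⟨_, rfl⟩
    have hd : ∀ n : ℕ, z n - xs P (fun α => C (c α)) n = (∑ α ∈ T, c α * α ^ n).re := fun n => by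
      rw [hre, hx, hT, ← Complex.sub_re]
      congr 1
      rw [← Finset.sum_filter_add_sum_filter_not (Rt P).toFinset (fun α => 1 < ‖α‖)]
      unfold Out
      ring
    have hl : Tendsto (fun n : ℕ => z n - xs P (fun α => C (c α)) n) atTop (𝓝 0) := by
      simp only [hd]
      have h1 : Tendsto (fun n : ℕ => ∑ α ∈ T, c α * α ^ n) atTop (𝓝 (∑ α ∈ T, c α * 0)) := by
        refine tendsto_finsetSum _ fun α hα => ?_
        rw [hT, Finset.mem_filter] at hα
        have h2 : ‖α‖ < 1 :=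
          lt_of_le_of_ne (not_lt.1 hα.2) (hH α (Multiset.mem_toFinset.1 hα.1))
        exact (tendsto_pow_atTop_nhds_zero_of_norm_lt_one h2).const_mul _
      have h3 := (Complex.continuous_re.tendsto _).comp h1
      have h4 : (∑ α ∈ T, c α * 0).re = 0 := by simp
      rw [h4] at h3
      exact h3
    have hnr : ∀ n : ℕ, nr (s n) = nr (z n) := fun n => by
      have : s n = z n + q n := by rw [hz]; ring
      rw [this, nr_add_int]
    refine squeeze_zero_norm (a := fun n : ℕ => |z n - xs P (fun α => C (c α)) n|)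
      (fun n => ?_) ?_
    · rw [hnr, Real.norm_eq_abs, abs_sub_comm]
      exact abs_nr_sub _ _
    · have := hl.abs
      simpa using this

end Pool.LSP
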