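import Pool.Agent.H17.LSP.RTS

/-!
# LSP, modules WIN, TH3: the windows, and the theorem on monic hyperbolic polynomials
-/

set_option autoImplicit false

namespace Pool.LSP

open Polynomial Filter Topology Finset
open scoped ComplexConjugate

namespace Win

open Rts

theorem root_sum {P : ℤ[X]} {α : ℂ} (h : α ∈ Rt P) :
    ∑ i ∈ range (P.natDegree + 1), (P.coeff i : ℂ) * α ^ i = 0 := by
  rw [rt_eq] at h
  have h0 : PC P ≠ 0 := by
    intro h0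
    rw [h0] at h
    simp at h
  rw [mem_roots h0, IsRoot.def] at h
  unfold PC at h
  rw [eval_map, eval₂_eq_sum_range] at h
  exact_mod_cast h

theorem root_zsum {P : ℤ[X]} {α : ℂ} (h : α ∈ Rt P) (h0 : α ≠ 0) (n : ℤ) :
    ∑ i ∈ range (P.natDegree + 1), (P.coeff i : ℂ) * α ^ (n + i) = 0 := by
  have h1 := root_sum h
  have h2 : ∀ i : ℕ, (P.coeff i : ℂ) * α ^ (n + i) = α ^ n * ((P.coeff i : ℂ) * α ^ i) := by
    intro i
    rw [zpow_add₀ h0, zpow_natCast]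
    ring
  simp only [h2]
  rw [← Finset.mul_sum, h1, mul_zero]

theorem root_ne {P : ℤ[X]} {α : ℂ} (h : α ∈ Rt P) (h0 : P.coeff 0 ≠ 0) : α ≠ 0 := by
  rintro rfl
  have h1 := root_sum h
  rw [Finset.sum_eq_single 0] at h1
  · simp only [pow_zero, mul_one] at h1
    exact h0 (by exact_mod_cast h1)
  · intro i _ hi
    rw [zero_pow hi, mul_zero]
  · intro h2
    exact absurd (Finset.mem_range.2 (by omega)) h2

theorem grow {u lam : ℝ} (hu : 1 < u) (hl : lam < u) :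
    ∃ n₀ : ℕ, ∀ n : ℕ, n₀ ≤ n → lam * (u ^ n + 1) ≤ u ^ (n + 1) - 1 := by
  obtain ⟨n₀, hn⟩ := pow_unbounded_of_one_lt ((lam + 1) / (u - lam)) hu
  refine ⟨n₀, fun n h => ?_⟩
  have h1 : u ^ n₀ ≤ u ^ n := pow_le_pow_right₀ hu.le h
  rw [div_lt_iff₀ (by linarith)] at hn
  have h2 : u ^ n₀ * (u - lam) ≤ u ^ n * (u - lam) :=
    mul_le_mul_of_nonneg_right h1 (by linarith)
  rw [pow_succ]
  nlinarith

theorem ratio {β γ : ℂ} {lam : ℝ} (hβ : 1 < ‖β‖) (hγ : ‖γ‖ < 1) (hl0 : 0 ≤ lam)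
    {n : ℕ} (h : lam * (‖β‖ ^ n + 1) ≤ ‖β‖ ^ (n + 1) - 1) :
    lam * ‖β ^ n - γ ^ n‖ ≤ ‖β ^ (n + 1) - γ ^ (n + 1)‖ := by
  have h1 : ‖β ^ n - γ ^ n‖ ≤ ‖β‖ ^ n + 1 := by
    refine (norm_sub_le _ _).trans ?_
    rw [norm_pow, norm_pow]
    have := pow_le_one₀ (n := n) (norm_nonneg γ) hγ.le
    linarith
  have h2 : ‖β‖ ^ (n + 1) - 1 ≤ ‖β ^ (n + 1) - γ ^ (n + 1)‖ := by
    refine le_trans ?_ (norm_sub_norm_le _ _)
    rw [norm_pow, norm_pow]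
    have := pow_le_one₀ (n := n + 1) (norm_nonneg γ) hγ.le
    linarith
  exact (mul_le_mul_of_nonneg_left h1 hl0).trans (h.trans h2)

end Win

open Win

theorem t_win (hAVT : AVTStmt) : WINStmt := by
  rintro P ⟨β, hβ, hβ1⟩ ⟨γ, hγ, hγ1⟩ h0
  have hβ0 := root_ne hβ h0
  have hγ0 := root_ne hγ h0
  obtain ⟨w, hw⟩ : ∃ w : ℤ → ℂ, w = fun j => β ^ j - γ ^ j := ⟨_, rfl⟩
  have hg0 : 0 < ‖γ‖ := norm_pos_iff.2 hγ0
  have hG : 1 < ‖γ⁻¹‖ := by
    rw [norm_inv]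
    exact (one_lt_inv₀ hg0).2 hγ1
  have hB : ‖β⁻¹‖ < 1 := by
    rw [norm_inv]
    exact inv_lt_one_of_one_lt₀ hβ1
  obtain ⟨lam, hl1, hlβ, hlG⟩ : ∃ lam : ℝ, 1 < lam ∧ lam < ‖β‖ ∧ lam < ‖γ⁻¹‖ := by
    obtain ⟨lam, h1, h2⟩ := exists_between (lt_min hβ1 hG)
    exact ⟨lam, h1, h2.trans_le (min_le_left _ _), h2.trans_le (min_le_right _ _)⟩
  obtain ⟨n₁, hn₁⟩ := grow hβ1 hlβ
  obtain ⟨n₂, hn₂⟩ := grow hG hlG
  obtain ⟨μ, hμ, hA⟩ := hAVT w lam (max n₁ n₂ : ℕ) hl1 (fun j hj => by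
    rw [hw]
    intro h1
    have h2 : ‖β‖ ^ j = ‖γ‖ ^ j := by
      rw [← norm_zpow, ← norm_zpow, sub_eq_zero.1 h1]
    rcases lt_or_gt_of_ne hj with h3 | h3
    · have h4 : ‖β‖ ^ j < 1 := zpow_lt_one_of_neg₀ hβ1 h3
      have h5 : 1 < ‖γ‖ ^ j := one_lt_zpow_of_neg₀ hg0 hγ1 h3
      linarith
    · have h4 : 1 < ‖β‖ ^ j := one_lt_zpow₀ hβ1 h3
      have h5 : ‖γ‖ ^ j < 1 := by
        obtain ⟨n, rfl⟩ := Int.eq_ofNat_of_zero_le h3.le
        rw [zpow_natCast]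
        exact pow_lt_one₀ hg0.le hγ1 (by omega)
      linarith) (fun j hj => by
    obtain ⟨n, rfl⟩ : ∃ n : ℕ, j = n := Int.eq_ofNat_of_zero_le (by
      exact (Int.natCast_nonneg _).trans hj)
    have hn : max n₁ n₂ ≤ n := by exact_mod_cast hj
    have hl0 : 0 ≤ lam := by linarith
    rw [hw]
    constructor
    · have h1 := ratio hβ1 hγ1 hl0 (hn₁ n ((le_max_left _ _).trans hn))
      have e1 : ((n : ℤ) + 1) = ((n + 1 : ℕ) : ℤ) := by push_cast; rfl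
      rw [e1]
      simp only [zpow_natCast]
      exact h1
    · have h1 := ratio hG hB hl0 (hn₂ n ((le_max_right _ _).trans hn))
      have e1 : ((n : ℤ) + 1) = ((n + 1 : ℕ) : ℤ) := by push_cast; rfl
      rw [e1]
      simp only [zpow_neg, zpow_natCast]
      simp only [inv_pow] at h1
      rw [norm_sub_rev (β ^ n)⁻¹, norm_sub_rev (β ^ (n + 1))⁻¹]
      exact h1)
  refine ⟨μ, hμ, fun c J => ?_⟩
  obtain ⟨z, hz⟩ := hA (fun j => c * (β ^ j).re) J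
  refine ⟨fun j => c * (β ^ j).re + (z * w j).re, ?_, hz, fun n => ?_⟩
  · rw [hw]
    simp
  · have h1 := root_zsum hβ hβ0 n
    have h2 := root_zsum hγ hγ0 n
    unfold Pr
    have h3 : ∀ i : ℕ, (P.coeff i : ℝ) * (c * (β ^ (n + i : ℤ)).re + (z * w (n + i)).re) =
        (((c : ℂ) + z) * ((P.coeff i : ℂ) * β ^ (n + i : ℤ)) -
          z * ((P.coeff i : ℂ) * γ ^ (n + i : ℤ))).re := by
      intro i
      rw [hw]
      have e1 : ((c : ℂ) + z) * ((P.coeff i : ℂ) * β ^ (n + i : ℤ)) -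
          z * ((P.coeff i : ℂ) * γ ^ (n + i : ℤ)) = ((P.coeff i : ℝ) : ℂ) *
          ((c : ℂ) * β ^ (n + i : ℤ) + z * (β ^ (n + i : ℤ) - γ ^ (n + i : ℤ))) := by
        push_cast
        ring
      rw [e1, Complex.re_ofReal_mul, Complex.add_re, Complex.re_ofReal_mul]
    simp only [h3]
    rw [← Complex.re_sum, Finset.sum_sub_distrib, ← Finset.mul_sum, ← Finset.mul_sum, h1, h2]
    simp

theorem t_th3 (hKAP : KAPStmt) (hWIN : WINStmt) (hDIG : DIGStmt) (hASM : ASMStmt)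
    (hCVB : CVBStmt) (hCNV : CNVStmt) (hLSM : LSMStmt) : TH3Stmt := by
  intro P hm hn hH h0 hβ hγ k
  obtain ⟨κ, C, lam, hK⟩ := hKAP P hm hn hH h0 hβ hγ
  obtain ⟨μ, hμ, hW⟩ := hWIN P hβ hγ h0
  obtain ⟨L, hL⟩ := hDIG P κ C lam hK
  obtain ⟨D, hD, hsol, -⟩ := hCVB P κ C lam hK
  obtain ⟨v, hv0, hv1, hv⟩ := hASM P κ C lam hK L μ hμ (fun c J => by
    obtain ⟨x, hx0, hxj, hx⟩ := hW c J
    obtain ⟨e, he, hex⟩ := hL x hx
    refine ⟨e, he, ?_, fun j hj hj' => ?_⟩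
    · obtain ⟨p, hp⟩ := hex 0
      exact ⟨p, by rw [hp, hx0]⟩
    · obtain ⟨p, hp⟩ := hex j
      rw [hp, hd_add_int]
      exact hxj j hj hj')
  refine ⟨v, hv0, hv1, fun c hc => ?_⟩
  obtain ⟨e, Q, heQ, hlim⟩ := hv c hc
  obtain ⟨g, hg, ht⟩ := hCNV P hm hn hH (cv κ e) (fun n _ => ⟨e n, hsol Q e heQ n⟩)
  refine ⟨g, fun α hα => ⟨(hg α hα).1.trans (Nat.zero_le _), (hg α hα).2⟩, ?_⟩
  have hb1 : IsBoundedUnder (· ≤ ·) atTop (fun n : ℕ => nr (cv κ e n)) :=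
    isBoundedUnder_of ⟨1 / 2, fun n => nr_le_half _⟩
  have hb2 : IsCoboundedUnder (· ≤ ·) atTop (fun n : ℕ => nr (cv κ e n)) :=
    (isBoundedUnder_of (r := (· ≥ ·)) ⟨0, fun n => nr_nonneg _⟩).isCoboundedUnder_le
  refine hLSM _ c (fun n => ⟨nr_nonneg _, nr_le_half _⟩) (fun ε hε => ?_) (fun ε hε => ?_)
  · have h1 : ∀ᶠ n : ℕ in atTop, nr (cv κ e n) < c + ε / 2 :=
      eventually_lt_of_limsup_lt (by rw [hlim]; linarith) hb1
    have h2 : ∀ᶠ n : ℕ in atTop, |nr (xs P g n) - nr (cv κ e n)| < ε / 2 := by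
      have := (ht.abs).eventually (gt_mem_nhds (show |(0 : ℝ)| < ε / 2 by simpa using by positivity))
      exact this
    filter_upwards [h1, h2] with n h3 h4
    have := abs_lt.1 h4
    linarith [this.2]
  · have h1 : ∃ᶠ n : ℕ in atTop, c - ε / 2 < nr (cv κ e n) :=
      frequently_lt_of_lt_limsup hb2 (by rw [hlim]; linarith)
    have h2 : ∀ᶠ n : ℕ in atTop, |nr (xs P g n) - nr (cv κ e n)| < ε / 2 := by
      have := (ht.abs).eventually (gt_mem_nhds (show |(0 : ℝ)| < ε / 2 by simpa using by positivity))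
      exact this
    refine (h1.and_eventually h2).mono fun n h3 => ?_
    have := abs_lt.1 h3.2
    linarith [this.1, h3.1]

end Pool.LSP
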